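import Mathlib

/-!
# The implicit function theorem for holomorphic functions of two variables (helper475)
-/

set_option autoImplicit false

namespace Pool.Agent.Y475.PC

open Complex Metric Set Filter Topology

theorem ift (F : ℂ × ℂ → ℂ) (x₀ y₀ : ℂ) (hF : AnalyticAt ℂ F (x₀, y₀)) (h0 : F (x₀, y₀) = 0)
    (hne : deriv (fun y => F (x₀, y)) y₀ ≠ 0) : ∃ (δ η : ℝ) (y : ℂ → ℂ), 0 < δ ∧ 0 < η ∧
    DifferentiableOn ℂ y (ball x₀ δ) ∧ y x₀ = y₀ ∧ (∀ x ∈ ball x₀ δ, F (x, y x) = 0) ∧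
    ∀ x ∈ ball x₀ δ, ∀ y' ∈ ball y₀ η, F (x, y') = 0 → y' = y x := by
  have hFc : ContDiffAt ℂ 1 F (x₀, y₀) := hF.contDiffAt
  have hFd : HasFDerivAt F (fderiv ℂ F (x₀, y₀)) (x₀, y₀) := hF.differentiableAt.hasFDerivAt
  obtain ⟨L, hL⟩ : ∃ L, L = fderiv ℂ F (x₀, y₀) := ⟨_, rfl⟩
  rw [← hL] at hFd
  obtain ⟨μ, hμ⟩ : ∃ μ, μ = deriv (fun y => F (x₀, y)) y₀ := ⟨_, rfl⟩
  rw [← hμ] at hne
  have hL1 : L (0, 1) = μ := by
    have h1 : HasDerivAt (fun z : ℂ => ((x₀, z) : ℂ × ℂ)) (0, 1) y₀ :=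
      (hasDerivAt_const y₀ x₀).prodMk (hasDerivAt_id y₀)
    have h2 := hFd.comp_hasDerivAt y₀ h1
    rw [hμ]
    exact h2.deriv.symm
  have hL2 : ∀ τ ζ : ℂ, L (τ, ζ) = τ * L (1, 0) + ζ * μ := by
    intro τ ζ
    have e : ((τ, ζ) : ℂ × ℂ) = τ • ((1, 0) : ℂ × ℂ) + ζ • ((0, 1) : ℂ × ℂ) := by
      ext <;> simp
    rw [e, map_add, map_smul, map_smul, hL1, smul_eq_mul, smul_eq_mul]
  obtain ⟨Φ, hΦ⟩ : ∃ Φ : ℂ × ℂ → ℂ × ℂ, Φ = fun p => (p.1, F p) := ⟨_, rfl⟩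
  have hcd : ContDiffAt ℂ 1 Φ (x₀, y₀) := by
    rw [hΦ]
    exact contDiffAt_fst.prodMk hFc
  obtain ⟨A, hA⟩ : ∃ A : ℂ × ℂ →L[ℂ] ℂ × ℂ, A = (ContinuousLinearMap.fst ℂ ℂ ℂ).prod L := ⟨_, rfl⟩
  obtain ⟨B, hB⟩ : ∃ B : ℂ × ℂ →L[ℂ] ℂ × ℂ, B = (ContinuousLinearMap.fst ℂ ℂ ℂ).prod
    (μ⁻¹ • (ContinuousLinearMap.snd ℂ ℂ ℂ - L (1, 0) • ContinuousLinearMap.fst ℂ ℂ ℂ)) :=
    ⟨_, rfl⟩
  have hAB1 : Function.LeftInverse B A := by
    rintro ⟨τ, ζ⟩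
    rw [hA, hB]
    simp only [ContinuousLinearMap.prod_apply, ContinuousLinearMap.coe_fst',
      ContinuousLinearMap.smul_apply, ContinuousLinearMap.sub_apply,
      ContinuousLinearMap.coe_snd', smul_eq_mul]
    rw [hL2]
    ext
    · rfl
    · simp only
      field_simp
      ring
  have hAB2 : Function.RightInverse B A := by
    rintro ⟨τ, ζ⟩
    rw [hA, hB]
    simp only [ContinuousLinearMap.prod_apply, ContinuousLinearMap.coe_fst',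
      ContinuousLinearMap.smul_apply, ContinuousLinearMap.sub_apply,
      ContinuousLinearMap.coe_snd', smul_eq_mul]
    rw [hL2]
    ext
    · rfl
    · simp only
      field_simp
      ring
  obtain ⟨E, hE⟩ : ∃ E : (ℂ × ℂ) ≃L[ℂ] (ℂ × ℂ), (E : ℂ × ℂ →L[ℂ] ℂ × ℂ) = A :=
    ⟨ContinuousLinearEquiv.equivOfInverse A B hAB1 hAB2, rfl⟩
  have hΦd : HasFDerivAt Φ (E : ℂ × ℂ →L[ℂ] ℂ × ℂ) (x₀, y₀) := by
    rw [hE, hA, hΦ]
    exact hasFDerivAt_fst.prodMk hFd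
  obtain ⟨Q, hQ⟩ : ∃ Q, Q = hcd.toOpenPartialHomeomorph Φ hΦd one_ne_zero := ⟨_, rfl⟩
  have hQc : (Q : ℂ × ℂ → ℂ × ℂ) = Φ := by
    rw [hQ]
    exact hcd.toOpenPartialHomeomorph_coe hΦd one_ne_zero
  have hQs : ((x₀, y₀) : ℂ × ℂ) ∈ Q.source := by
    rw [hQ]
    exact hcd.mem_toOpenPartialHomeomorph_source hΦd one_ne_zero
  have hΦ0 : Φ (x₀, y₀) = (x₀, 0) := by
    rw [hΦ]
    simp only
    rw [h0]
  have hQt : ((x₀, 0) : ℂ × ℂ) ∈ Q.target := by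
    rw [← hΦ0, ← hQc]
    exact Q.map_source hQs
  have hinv : ContDiffAt ℂ 1 Q.symm (x₀, 0) := by
    rw [← hΦ0, hQ]
    exact hcd.to_localInverse hΦd one_ne_zero
  obtain ⟨y, hy⟩ : ∃ y : ℂ → ℂ, y = fun x => (Q.symm (x, 0)).2 := ⟨_, rfl⟩
  have hQ0 : Q.symm (x₀, 0) = (x₀, y₀) := by
    rw [← hΦ0, ← hQc]
    exact Q.left_inv hQs
  have hy0 : y x₀ = y₀ := by
    rw [hy]
    simp only
    rw [hQ0]
  have hyc : ContDiffAt ℂ 1 y x₀ := by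
    rw [hy]
    have h1 : ContDiffAt ℂ 1 (fun x : ℂ => ((x, 0) : ℂ × ℂ)) x₀ :=
      contDiffAt_id.prodMk contDiffAt_const
    exact contDiffAt_snd.comp x₀ (hinv.comp x₀ h1)
  -- the neighbourhoods
  have hyd : ∀ᶠ x in 𝓝 x₀, DifferentiableAt ℂ y x :=
    (hyc.eventually (by simp)).mono fun x hx => hx.differentiableAt one_ne_zero
  have hcont : ContinuousAt (fun x : ℂ => ((x, 0) : ℂ × ℂ)) x₀ := by fun_prop
  have htar : ∀ᶠ x in 𝓝 x₀, ((x, 0) : ℂ × ℂ) ∈ Q.target :=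
    hcont.eventually (Q.open_target.mem_nhds hQt)
  have hsrc : ∀ᶠ p in 𝓝 ((x₀, y₀) : ℂ × ℂ), p ∈ Q.source := Q.open_source.mem_nhds hQs
  obtain ⟨r, hr, hball⟩ := Metric.eventually_nhds_iff_ball.1 hsrc
  obtain ⟨δ, hδ, hδball⟩ := Metric.eventually_nhds_iff_ball.1 (hyd.and htar)
  refine ⟨min δ r, r, y, lt_min hδ hr, hr, ?_, hy0, ?_, ?_⟩
  · intro x hx
    exact (hδball x (ball_subset_ball (min_le_left _ _) hx)).1.differentiableWithinAt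
  · intro x hx
    have h1 := (hδball x (ball_subset_ball (min_le_left _ _) hx)).2
    have h2 := Q.right_inv h1
    rw [hQc, hΦ] at h2
    have h3 := (Prod.ext_iff.1 h2).1
    have h4 := (Prod.ext_iff.1 h2).2
    simp only at h3 h4
    have h5 : Q.symm (x, 0) = (x, y x) := by
      refine Prod.ext h3 ?_
      rw [hy]
    rw [← h5]
    exact h4
  · intro x hx y' hy' hz
    have h1 := (hδball x (ball_subset_ball (min_le_left _ _) hx)).2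
    have h2 : ((x, y') : ℂ × ℂ) ∈ Q.source := by
      apply hball
      rw [mem_ball, Prod.dist_eq, max_lt_iff]
      exact ⟨lt_of_lt_of_le hx (min_le_right _ _), hy'⟩
    have h3 := Q.left_inv h2
    rw [hQc, hΦ] at h3
    simp only at h3
    rw [hz] at h3
    rw [hy]
    simp only
    rw [h3]

end Pool.Agent.Y475.PC
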