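import Pool.Agent.Y811.PC.Stm
import Pool.Agent.Y475.PC.IFT0

/-!
# Job PC-IFT (helper475)
-/

set_option autoImplicit false

namespace Pool.Agent.Y475.PC

open Pool.Agent.Y811.PC

theorem t_IFT : S_IFT := fun F x₀ y₀ hF h0 hne => ift F x₀ y₀ hF h0 hne

end Pool.Agent.Y475.PC
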