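import Pool.Agent.Y475.PC.IFT0

/-!
# A curve of fixed points at a parabolic point of multiplier one (helper475)
-/

set_option autoImplicit false

namespace Pool.Agent.Y475.PC

open Complex Metric Set Filter Topology Polynomial

/-- the Taylor polynomials of the iterates at `ζ c` -/
noncomputable def tq (d : ℕ) (ζ : ℂ → ℂ) : ℕ → ℂ → ℂ[X]
  | 0, c => X + C (ζ c)
  | m + 1, c => (tq d ζ m c) ^ d + C c

theorem tq_eval (d : ℕ) (ζ : ℂ → ℂ) (m : ℕ) (c v : ℂ) :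
    (tq d ζ m c).eval v = (fun z => z ^ d + c)^[m] (ζ c + v) := by
  induction m with
  | zero => simp [tq, add_comm]
  | succ m ih =>
    rw [Function.iterate_succ_apply', ← ih]
    simp [tq]

theorem tq_deg (d : ℕ) (ζ : ℂ → ℂ) (m : ℕ) (c : ℂ) : (tq d ζ m c).natDegree ≤ d ^ m := by
  induction m with
  | zero =>
    unfold tq
    rw [natDegree_X_add_C, pow_zero]
  | succ m ih =>
    unfold tq
    rw [natDegree_add_C]
    refine natDegree_pow_le.trans ?_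
    rw [pow_succ, mul_comm (d ^ m) d]
    exact Nat.mul_le_mul_left d ih

theorem coeff_an_pow (p : ℂ → ℂ[X]) (c₀ : ℂ) (h : ∀ k, AnalyticAt ℂ (fun c => (p c).coeff k) c₀)
    (n : ℕ) : ∀ k, AnalyticAt ℂ (fun c => ((p c) ^ n).coeff k) c₀ := by
  induction n with
  | zero =>
    intro k
    simp only [pow_zero]
    exact analyticAt_const
  | succ n ih =>
    intro k
    have e : (fun c => ((p c) ^ (n + 1)).coeff k) = fun c =>
        ∑ x ∈ Finset.HasAntidiagonal.antidiagonal k, ((p c) ^ n).coeff x.1 * (p c).coeff x.2 := by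
      funext c
      rw [pow_succ, coeff_mul]
    rw [e]
    exact Finset.analyticAt_fun_sum _ fun x _ => (ih x.1).mul (h x.2)

theorem tq_an (d : ℕ) (ζ : ℂ → ℂ) (c₀ : ℂ) (hζ : AnalyticAt ℂ ζ c₀) (m : ℕ) :
    ∀ k, AnalyticAt ℂ (fun c => (tq d ζ m c).coeff k) c₀ := by
  have hC : ∀ (f : ℂ → ℂ), AnalyticAt ℂ f c₀ → ∀ k,
      AnalyticAt ℂ (fun c => (C (f c) : ℂ[X]).coeff k) c₀ := by
    intro f hf k
    by_cases hk : k = 0
    · subst hk
      simpa using hf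
    · have e : (fun c => (C (f c) : ℂ[X]).coeff k) = fun _ => 0 := by
        funext c
        rw [coeff_C, if_neg hk]
      rw [e]
      exact analyticAt_const
  induction m with
  | zero =>
    intro k
    have e : (fun c => (tq d ζ 0 c).coeff k) = fun c => (X : ℂ[X]).coeff k + (C (ζ c)).coeff k := by
      funext c
      unfold tq
      rw [coeff_add]
    rw [e]
    exact analyticAt_const.add (hC ζ hζ k)
  | succ m ih =>
    intro k
    have e : (fun c => (tq d ζ (m + 1) c).coeff k) = fun c =>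
        ((tq d ζ m c) ^ d).coeff k + (C c).coeff k := by
      funext c
      show ((tq d ζ m c) ^ d + C c).coeff k = _
      rw [coeff_add]
    rw [e]
    exact (coeff_an_pow _ c₀ ih d k).add (hC (fun c => c) analyticAt_id k)

/-- the second remainder -/
noncomputable def rem2 (D : ℕ) (p : ℂ → ℂ[X]) (x : ℂ × ℂ) : ℂ :=
  ∑ k ∈ Finset.range D, (p x.1).coeff (k + 2) * x.2 ^ k

theorem rem2_eq (D : ℕ) (p : ℂ → ℂ[X]) (c : ℂ) (h : (p c).natDegree ≤ D) (v : ℂ) :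
    (p c).eval v = (p c).coeff 0 + (p c).coeff 1 * v + v ^ 2 * rem2 D p (c, v) := by
  rw [eval_eq_sum_range' (show (p c).natDegree < D + 2 by omega), Finset.sum_range_succ',
    Finset.sum_range_succ']
  unfold rem2
  rw [Finset.mul_sum]
  have e : ∀ k ∈ Finset.range D, (p c).coeff (k + 1 + 1) * v ^ (k + 1 + 1) =
      v ^ 2 * ((p c).coeff (k + 2) * v ^ k) := by
    intro k _
    ring
  rw [Finset.sum_congr rfl e]
  ring

theorem rem2_zero (D : ℕ) (hD : 1 ≤ D) (p : ℂ → ℂ[X]) (c : ℂ) :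
    rem2 D p (c, 0) = (p c).coeff 2 := by
  unfold rem2
  rw [Finset.sum_eq_single 0]
  · simp
  · intro k _ hk
    simp [hk]
  · intro h
    exact absurd (Finset.mem_range.2 (by omega)) h

theorem rem2_an (D : ℕ) (p : ℂ → ℂ[X]) (c₀ v₀ : ℂ)
    (h : ∀ k, AnalyticAt ℂ (fun c => (p c).coeff k) c₀) : AnalyticAt ℂ (rem2 D p) (c₀, v₀) := by
  have e : rem2 D p = fun x : ℂ × ℂ => ∑ k ∈ Finset.range D, (p x.1).coeff (k + 2) * x.2 ^ k := rfl
  rw [e]
  refine Finset.analyticAt_fun_sum _ fun k _ => ?_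
  have h1 : AnalyticAt ℂ (fun x : ℂ × ℂ => (p x.1).coeff (k + 2)) (c₀, v₀) := by
    have h2 := h (k + 2)
    exact AnalyticAt.fun_comp (f := fun x : ℂ × ℂ => x.1) (g := fun c => (p c).coeff (k + 2)) h2
      analyticAt_fst
  exact h1.mul (analyticAt_snd.pow k)

/-- the coefficients of order zero and one -/
theorem tq_coeff (d : ℕ) (ζ : ℂ → ℂ) (m : ℕ) (c : ℂ) :
    (tq d ζ m c).coeff 0 = (fun z => z ^ d + c)^[m] (ζ c) ∧
    (tq d ζ m c).coeff 1 = deriv ((fun z => z ^ d + c)^[m]) (ζ c) ∧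
    ∀ v, (derivative (tq d ζ m c)).eval v = deriv ((fun z => z ^ d + c)^[m]) (ζ c + v) := by
  have h3 : ∀ v, (derivative (tq d ζ m c)).eval v = deriv ((fun z => z ^ d + c)^[m]) (ζ c + v) := by
    intro v
    have h1 : deriv (fun v => (tq d ζ m c).eval v) v = (derivative (tq d ζ m c)).eval v :=
      Polynomial.deriv _
    have h2 : (fun v => (tq d ζ m c).eval v) = fun v => (fun z => z ^ d + c)^[m] (ζ c + v) := by
      funext v
      exact tq_eval d ζ m c v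
    rw [← h1, h2, deriv_comp_const_add]
  refine ⟨?_, ?_, h3⟩
  · rw [coeff_zero_eq_eval_zero, tq_eval, add_zero]
  · have h4 := h3 0
    rw [add_zero] at h4
    rw [← h4, ← coeff_zero_eq_eval_zero, coeff_derivative]
    simp

theorem sec1 (d m : ℕ) (hd : 2 ≤ d) (c₀ z₀ : ℂ) (a : ℂ → ℂ)
    (hgm : AnalyticAt ℂ (fun p : ℂ × ℂ => deriv ((fun z => z ^ d + p.1)^[m]) p.2) (c₀, z₀))
    (hfin : {c : ℂ | ∃ z, (fun z => z ^ d + c)^[m] z = z ∧
      deriv ((fun z => z ^ d + c)^[m]) z = 1}.Finite)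
    (h0 : (fun z => z ^ d + c₀)^[m] z₀ = z₀) (h1 : deriv ((fun z => z ^ d + c₀)^[m]) z₀ = 1)
    (ha : AnalyticAt ℂ a 0) (ha0 : a 0 ≠ 0)
    (hgerm : ∀ᶠ u in 𝓝 (0 : ℂ), (fun z => z ^ d + c₀)^[m] (z₀ + u) = z₀ + u + u ^ 2 * a u) :
    ∃ (δ : ℝ) (cc aa : ℂ → ℂ), 0 < δ ∧ DifferentiableOn ℂ cc (ball 0 δ) ∧
      DifferentiableOn ℂ aa (ball 0 δ) ∧ cc 0 = c₀ ∧ aa 0 = z₀ ∧
      (∀ t ∈ ball (0 : ℂ) δ, (fun z => z ^ d + cc t)^[m] (aa t) = aa t) ∧
      ∀ t ∈ ball (0 : ℂ) δ, t ≠ 0 → cc t ≠ c₀ := by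
  obtain ⟨D, hD⟩ : ∃ D, D = d ^ m := ⟨_, rfl⟩
  have hD1 : 1 ≤ D := by
    rw [hD]
    exact Nat.one_le_pow _ _ (by omega)
  -- the coefficient of order two
  have hc2 : ∀ ζ : ℂ → ℂ, ζ c₀ = z₀ → (tq d ζ m c₀).coeff 2 = a 0 := by
    intro ζ hζ
    obtain ⟨e0, e1, -⟩ := tq_coeff d ζ m c₀
    rw [hζ] at e0 e1
    have h2 : ∀ᶠ v in 𝓝[≠] (0 : ℂ), rem2 D (tq d ζ m) (c₀, v) = a v := by
      filter_upwards [nhdsWithin_le_nhds hgerm, self_mem_nhdsWithin] with v hv hv0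
      have hv0' : v ≠ 0 := hv0
      have h3 := rem2_eq D (tq d ζ m) c₀ (by rw [hD]; exact tq_deg d ζ m c₀) v
      rw [tq_eval, hζ, hv, e0, e1, h0, h1] at h3
      have h4 : v ^ 2 * (rem2 D (tq d ζ m) (c₀, v) - a v) = 0 := by linear_combination -h3
      rcases mul_eq_zero.1 h4 with h5 | h5
      · exact absurd (pow_eq_zero_iff (two_ne_zero) |>.1 h5) hv0'
      · exact sub_eq_zero.1 h5
    have h6 : Tendsto (fun v => rem2 D (tq d ζ m) (c₀, v)) (𝓝[≠] (0 : ℂ))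
        (𝓝 (rem2 D (tq d ζ m) (c₀, 0))) := by
      have h7 : Continuous (fun v => rem2 D (tq d ζ m) (c₀, v)) := by
        unfold rem2
        refine continuous_finsetSum _ fun k _ => ?_
        show Continuous (fun v : ℂ => (tq d ζ m c₀).coeff (k + 2) * v ^ k)
        exact continuous_const.mul (continuous_pow k)
      exact (h7.tendsto 0).mono_left nhdsWithin_le_nhds
    have h8 : Tendsto a (𝓝[≠] (0 : ℂ)) (𝓝 (a 0)) :=
      ha.continuousAt.tendsto.mono_left nhdsWithin_le_nhds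
    rw [← rem2_zero D hD1]
    exact tendsto_nhds_unique (h6.congr' h2) h8
  -- the critical points of the equation
  have hder : deriv (fun z => deriv ((fun z => z ^ d + c₀)^[m]) z - 1) z₀ ≠ 0 := by
    obtain ⟨-, -, h3⟩ := tq_coeff d (fun _ => z₀) m c₀
    have e : (fun z => deriv ((fun z => z ^ d + c₀)^[m]) z - 1) =
        fun z => (derivative (tq d (fun _ => z₀) m c₀)).eval (z - z₀) - 1 := by
      funext z
      rw [h3]
      congr 2
      ring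
    rw [e, deriv_sub_const, deriv_comp_sub_const (f := fun z =>
      (derivative (tq d (fun _ => z₀) m c₀)).eval z), Polynomial.deriv, sub_self,
      ← coeff_zero_eq_eval_zero, coeff_derivative, coeff_derivative]
    have := hc2 (fun _ => z₀) rfl
    norm_num
    rw [this]
    exact ha0
  obtain ⟨δ₁, η₁, ζ, hδ₁, -, hζd, hζ0, hζ1, -⟩ := ift
    (fun p : ℂ × ℂ => deriv ((fun z => z ^ d + p.1)^[m]) p.2 - 1) c₀ z₀
    (hgm.sub analyticAt_const) (by simp only; rw [h1, sub_self]) hder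
  have hζan : AnalyticAt ℂ ζ c₀ := hζd.analyticAt (isOpen_ball.mem_nhds (mem_ball_self hδ₁))
  -- the value
  obtain ⟨Δ, hΔ⟩ : ∃ Δ : ℂ → ℂ, Δ = fun c => (fun z => z ^ d + c)^[m] (ζ c) - ζ c := ⟨_, rfl⟩
  have hΔan : AnalyticAt ℂ Δ c₀ := by
    have e : Δ = fun c => (tq d ζ m c).coeff 0 - ζ c := by
      rw [hΔ]
      funext c
      rw [(tq_coeff d ζ m c).1]
    rw [e]
    exact (tq_an d ζ c₀ hζan m 0).sub hζan
  have hΔne : ¬ ∀ᶠ c in 𝓝 c₀, Δ c = 0 := by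
    intro hcon
    have h2 : ∀ᶠ c in 𝓝 c₀, c ∈ {c : ℂ | ∃ z, (fun z => z ^ d + c)^[m] z = z ∧
        deriv ((fun z => z ^ d + c)^[m]) z = 1} := by
      filter_upwards [hcon, isOpen_ball.mem_nhds (mem_ball_self hδ₁)] with c hc hcb
      refine ⟨ζ c, ?_, ?_⟩
      · rw [hΔ] at hc
        exact sub_eq_zero.1 hc
      · exact sub_eq_zero.1 (hζ1 c hcb)
    exact (infinite_of_mem_nhds c₀ h2) hfin
  obtain ⟨e, k, hkan, hk0, hk⟩ := hΔan.exists_eventuallyEq_pow_smul_nonzero_iff.2 hΔne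
  have he : 1 ≤ e := by
    by_contra hlt
    have he0 : e = 0 := by omega
    have h2 := hk.self_of_nhds
    rw [he0, pow_zero, one_smul, hΔ] at h2
    simp only at h2
    rw [hζ0, h0, sub_self] at h2
    exact hk0 h2.symm
  -- the remainder
  obtain ⟨A, hA⟩ : ∃ A : ℂ × ℂ → ℂ, A = rem2 D (tq d ζ m) := ⟨_, rfl⟩
  have hAan : AnalyticAt ℂ A (c₀, 0) := by
    rw [hA]
    exact rem2_an D _ c₀ 0 (tq_an d ζ c₀ hζan m)
  have hA0 : A (c₀, 0) = a 0 := by
    rw [hA, rem2_zero D hD1, hc2 ζ hζ0]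
  have hAeq : ∀ c ∈ ball c₀ δ₁, ∀ v, (fun z => z ^ d + c)^[m] (ζ c + v) - (ζ c + v) =
      Δ c + v ^ 2 * A (c, v) := by
    intro c hc v
    have h3 := rem2_eq D (tq d ζ m) c (by rw [hD]; exact tq_deg d ζ m c) v
    obtain ⟨e0, e1, -⟩ := tq_coeff d ζ m c
    have h4 : deriv ((fun z => z ^ d + c)^[m]) (ζ c) = 1 := sub_eq_zero.1 (hζ1 c hc)
    rw [tq_eval, e0, e1, h4] at h3
    rw [h3, hΔ, hA]
    ring
  obtain ⟨y₀, hy₀⟩ := IsAlgClosed.exists_pow_nat_eq (-(k c₀) / a 0) (show 0 < 2 by norm_num)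
  have hy₀ne : y₀ ≠ 0 := by
    intro h
    rw [h] at hy₀
    have h2 : -(k c₀) / a 0 ≠ 0 := div_ne_zero (neg_ne_zero.2 hk0) ha0
    exact h2 (by rw [← hy₀]; simp)
  have he0 : (0 : ℂ) ^ e = 0 := zero_pow (by omega)
  obtain ⟨F, hF⟩ : ∃ F : ℂ × ℂ → ℂ, F = fun p =>
    k (c₀ + p.1 ^ 2) + p.2 ^ 2 * A (c₀ + p.1 ^ 2, p.1 ^ e * p.2) := ⟨_, rfl⟩
  have hFan : AnalyticAt ℂ F (0, y₀) := by
    rw [hF]
    have h2 : AnalyticAt ℂ (fun p : ℂ × ℂ => c₀ + p.1 ^ 2) (0, y₀) :=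
      analyticAt_const.add (analyticAt_fst.pow 2)
    have h3 : AnalyticAt ℂ (fun p : ℂ × ℂ => k (c₀ + p.1 ^ 2)) (0, y₀) :=
      AnalyticAt.fun_comp_of_eq hkan h2 (by simp)
    have h4 : AnalyticAt ℂ (fun p : ℂ × ℂ => ((c₀ + p.1 ^ 2, p.1 ^ e * p.2) : ℂ × ℂ)) (0, y₀) :=
      h2.prod ((analyticAt_fst.pow e).mul analyticAt_snd)
    have h5 : AnalyticAt ℂ (fun p : ℂ × ℂ => A (c₀ + p.1 ^ 2, p.1 ^ e * p.2)) (0, y₀) :=
      AnalyticAt.fun_comp_of_eq hAan h4 (by simp [he0])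
    exact h3.add ((analyticAt_snd.pow 2).mul h5)
  have hF0y : ∀ y, F (0, y) = k c₀ + y ^ 2 * a 0 := by
    intro y
    rw [hF]
    simp only
    rw [he0, zero_mul, zero_pow two_ne_zero, add_zero, hA0]
  have hF0 : F (0, y₀) = 0 := by
    rw [hF0y, hy₀]
    field_simp
    ring
  have hFd : deriv (fun y => F (0, y)) y₀ ≠ 0 := by
    have e1 : (fun y => F (0, y)) = fun y => k c₀ + y ^ 2 * a 0 := by
      funext y
      exact hF0y y
    have h2 : HasDerivAt (fun y => k c₀ + y ^ 2 * a 0) (2 * y₀ * a 0) y₀ := by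
      have h3 := (((hasDerivAt_id y₀).pow 2).mul_const (a 0)).const_add (k c₀)
      simpa using h3
    rw [e1, h2.deriv]
    exact mul_ne_zero (mul_ne_zero two_ne_zero hy₀ne) ha0
  obtain ⟨δ₂, η₂, y, hδ₂, -, hyd, hy0, hy1, -⟩ := ift F 0 y₀ hFan hF0 hFd
  -- the choice of the radius
  have hct : ContinuousAt (fun t : ℂ => c₀ + t ^ 2) 0 := by fun_prop
  have hev : ∀ᶠ t in 𝓝 (0 : ℂ), (c₀ + t ^ 2) ∈ ball c₀ δ₁ ∧
      Δ (c₀ + t ^ 2) = (c₀ + t ^ 2 - c₀) ^ e • k (c₀ + t ^ 2) := by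
    have h2 : ∀ᶠ c in 𝓝 c₀, c ∈ ball c₀ δ₁ ∧ Δ c = (c - c₀) ^ e • k c :=
      Filter.Eventually.and (isOpen_ball.mem_nhds (mem_ball_self hδ₁)) hk
    have h3 : Tendsto (fun t : ℂ => c₀ + t ^ 2) (𝓝 0) (𝓝 c₀) := by
      have h4 := hct.tendsto
      rwa [show c₀ + (0 : ℂ) ^ 2 = c₀ by simp] at h4
    exact h3.eventually h2
  obtain ⟨δ₃, hδ₃, hδ₃b⟩ := Metric.eventually_nhds_iff_ball.1 hev
  refine ⟨min δ₂ δ₃, fun t => c₀ + t ^ 2, fun t => ζ (c₀ + t ^ 2) + t ^ e * y t,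
    lt_min hδ₂ hδ₃, ?_, ?_, by simp, ?_, ?_, ?_⟩
  · exact Differentiable.differentiableOn (by fun_prop)
  · have h2 : DifferentiableOn ℂ (fun t : ℂ => ζ (c₀ + t ^ 2)) (ball 0 (min δ₂ δ₃)) :=
      hζd.comp (Differentiable.differentiableOn (by fun_prop))
        fun t ht => (hδ₃b t (ball_subset_ball (min_le_right _ _) ht)).1
    have h3 : DifferentiableOn ℂ y (ball 0 (min δ₂ δ₃)) :=
      hyd.mono (ball_subset_ball (min_le_left _ _))
    exact h2.add ((Differentiable.differentiableOn (by fun_prop)).mul h3)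
  · simp only
    rw [he0, zero_mul, add_zero, zero_pow two_ne_zero, add_zero, hζ0]
  · intro t ht
    obtain ⟨h2, h3⟩ := hδ₃b t (ball_subset_ball (min_le_right _ _) ht)
    have h4 := hy1 t (ball_subset_ball (min_le_left _ _) ht)
    have h5 := hAeq _ h2 (t ^ e * y t)
    rw [hF] at h4
    simp only at h4
    rw [h3, smul_eq_mul] at h5
    have h6 : (c₀ + t ^ 2 - c₀) ^ e = (t ^ e) ^ 2 := by
      rw [add_sub_cancel_left, ← pow_mul, ← pow_mul, mul_comm]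
    rw [h6] at h5
    refine sub_eq_zero.1 (h5.trans ?_)
    linear_combination (t ^ e) ^ 2 * h4
  · intro t _ ht0 h2
    apply ht0
    have h3 : t ^ 2 = 0 := by linear_combination h2
    exact pow_eq_zero_iff (two_ne_zero) |>.1 h3

end Pool.Agent.Y475.PC
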