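import Pool.Agent.Y811.PC.Stm
import Pool.Agent.Y475.PC.SEC0

/-!
# Job PC-SEC1 (helper475)
-/

set_option autoImplicit false

namespace Pool.Agent.Y475.PC

open Complex Metric Set Filter Topology Pool.Agent.H712R2
open Pool.Agent.Y811.PC

theorem t_SEC1 (_h1 : S_IFT) (h2 : S_FIN) (hA : S_ANA) : S_SEC1 := by
  intro d m c₀ z₀ a hd hm hfix hmu hg
  obtain ⟨ha, ha0, hgerm⟩ := hg
  have hfin := h2 d m hd hm 1 (by simp)
  have hgerm' : ∀ᶠ u in 𝓝 (0 : ℂ), (fun z => z ^ d + c₀)^[m] (z₀ + u) =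
      z₀ + u + u ^ 2 * a u := by
    filter_upwards [hgerm] with u hu
    exact hu
  exact sec1 d m hd c₀ z₀ a (hA d m c₀ z₀).2 hfin hfix hmu ha ha0 hgerm'

end Pool.Agent.Y475.PC
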